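import Pool.Agent.Helper55.TowerCH

/-!
Question Q1 of MP_7b70e8_gt: under the continuum hypothesis there is a set of reals which has
`Split(Omega, T)` but does not have `Split(T, Gamma)`.
-/

namespace Pool.Agent.Results.MP_7b70e8_gt.CHCounterexample

open Pool.Agent.Helper55

/-- If the continuum equals aleph one, then some set of reals `X` (with the subspace topology)
satisfies `Split(Omega, T)` and does not satisfy `Split(T, Gamma)`. -/
theorem result (hCH : (Cardinal.continuum : Cardinal.{0}) = Cardinal.aleph 1) :
    ∃ X : Set ℝ, Split (OmegaCovers X) (TauCovers X) ∧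
      ¬ Split (TauCovers X) (GammaCovers X) :=
  exists_set_of_reals hCH

end Pool.Agent.Results.MP_7b70e8_gt.CHCounterexample
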