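import Pool.Agent.Helper55.SplitLambda

/-!
Question Q2 of MP_7b70e8_gt: for every set of reals, `Split(Omega, T)` implies
`Split(Lambda, Lambda)`.
-/

namespace Pool.Agent.Results.MP_7b70e8_gt.OmegaTauImpliesLambda

open Pool.Agent.Helper55

/-- For every set of reals `X` (with the subspace topology), if every open omega-cover of `X`
splits into two subfamilies each containing a tau-cover, then every open large cover of `X`
splits into two subfamilies each containing a large cover. -/
theorem result (X : Set ℝ) (h : Split (OmegaCovers X) (TauCovers X)) :
    Split (LambdaCovers X) (LambdaCovers X) :=
  split_lambda_of_split_omega_tau h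

end Pool.Agent.Results.MP_7b70e8_gt.OmegaTauImpliesLambda
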